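import Mathlib

set_option autoImplicit false
open MeasureTheory Filter Topology Set
open scoped ENNReal

namespace Pool.Agent.H588_SG

variable {α : Type*} [MeasurableSpace α] {μ : Measure α}

theorem memLp_mul {g : α → ℂ} (hg : Measurable g) {C : ℝ} (hC : ∀ s, ‖g s‖ ≤ C)
    (f : Lp ℂ 2 μ) : MemLp (fun s => g s * f s) 2 μ := by
  refine MemLp.of_le_mul (c := C) (Lp.memLp f)
    (hg.aestronglyMeasurable.mul (Lp.aestronglyMeasurable f)) ?_
  filter_upwards with s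
  rw [norm_mul]
  exact mul_le_mul_of_nonneg_right (hC s) (norm_nonneg _)

/-- multiplication by a bounded measurable function on `L²` -/
noncomputable def mulOp (g : α → ℂ) (hg : Measurable g) (C : ℝ) (hC : ∀ s, ‖g s‖ ≤ C) :
    Lp ℂ 2 μ →L[ℂ] Lp ℂ 2 μ :=
  LinearMap.mkContinuous
    { toFun := fun f => (memLp_mul hg hC f).toLp _
      map_add' := by
        intro f1 f2
        apply Lp.ext
        filter_upwards [MemLp.coeFn_toLp (memLp_mul hg hC (f1 + f2)),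
          MemLp.coeFn_toLp (memLp_mul hg hC f1), MemLp.coeFn_toLp (memLp_mul hg hC f2),
          Lp.coeFn_add f1 f2,
          Lp.coeFn_add ((memLp_mul hg hC f1).toLp _) ((memLp_mul hg hC f2).toLp _)]
          with s h1 h2 h3 h4 h5
        rw [h1, h5, Pi.add_apply, h2, h3, h4, Pi.add_apply, mul_add]
      map_smul' := by
        intro c f
        apply Lp.ext
        filter_upwards [MemLp.coeFn_toLp (memLp_mul hg hC (c • f)),
          MemLp.coeFn_toLp (memLp_mul hg hC f), Lp.coeFn_smul c f,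
          Lp.coeFn_smul c ((memLp_mul hg hC f).toLp _)]
          with s h1 h2 h3 h4
        rw [h1, RingHom.id_apply, h4, Pi.smul_apply, h2, h3, Pi.smul_apply, smul_eq_mul,
          smul_eq_mul]
        ring } C (by
    intro f
    apply Lp.norm_le_mul_norm_of_ae_le_mul
    filter_upwards [MemLp.coeFn_toLp (memLp_mul hg hC f)] with s h1
    change ‖((memLp_mul hg hC f).toLp _ : α → ℂ) s‖ ≤ _
    rw [h1, norm_mul]
    exact mul_le_mul_of_nonneg_right (hC s) (norm_nonneg _))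

theorem coeFn_mulOp (g : α → ℂ) (hg : Measurable g) (C : ℝ) (hC : ∀ s, ‖g s‖ ≤ C)
    (f : Lp ℂ 2 μ) : (mulOp (μ := μ) g hg C hC f : α → ℂ) =ᵐ[μ] fun s => g s * f s :=
  MemLp.coeFn_toLp (memLp_mul hg hC f)

theorem norm_mulOp_le (g : α → ℂ) (hg : Measurable g) (C : ℝ) (hC : ∀ s, ‖g s‖ ≤ C)
    (f : Lp ℂ 2 μ) : ‖mulOp (μ := μ) g hg C hC f‖ ≤ C * ‖f‖ := by
  apply Lp.norm_le_mul_norm_of_ae_le_mul
  filter_upwards [coeFn_mulOp (μ := μ) g hg C hC f] with s h1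
  rw [h1, norm_mul]
  exact mul_le_mul_of_nonneg_right (hC s) (norm_nonneg _)

theorem integrable_normSq (f : Lp ℂ 2 μ) : Integrable (fun s => ‖f s‖ ^ 2) μ :=
  (Lp.memLp f).integrable_norm_pow (by norm_num)

theorem norm_sq_eq (f : Lp ℂ 2 μ) : ‖f‖ ^ 2 = ∫ s, ‖f s‖ ^ 2 ∂μ := by
  have h1 : (inner ℂ f f : ℂ) = ((‖f‖ ^ 2 : ℝ) : ℂ) := by
    rw [inner_self_eq_norm_sq_to_K]; norm_cast
  have h2 : (inner ℂ f f : ℂ) = ((∫ s, ‖f s‖ ^ 2 ∂μ : ℝ) : ℂ) := by
    rw [L2.inner_def]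
    rw [← integral_complex_ofReal]
    congr 1
    ext s
    rw [inner_self_eq_norm_sq_to_K]; norm_cast
  have h3 := h1.symm.trans h2
  exact_mod_cast h3

/-- dominated convergence for multipliers -/
theorem tendsto_mulOp_zero {ι : Type*} {l : Filter ι} [l.IsCountablyGenerated]
    (g : ι → α → ℂ) (hg : ∀ i, Measurable (g i)) (C : ℝ) (hC : ∀ i s, ‖g i s‖ ≤ C)
    (f : Lp ℂ 2 μ) (hlim : ∀ᵐ s ∂μ, f s ≠ 0 → Tendsto (fun i => g i s) l (𝓝 0)) :
    Tendsto (fun i => mulOp (μ := μ) (g i) (hg i) C (hC i) f) l (𝓝 0) := by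
  rw [tendsto_zero_iff_norm_tendsto_zero]
  have h1 : Tendsto (fun i => ‖mulOp (μ := μ) (g i) (hg i) C (hC i) f‖ ^ 2) l (𝓝 0) := by
    have h2 : ∀ i, ‖mulOp (μ := μ) (g i) (hg i) C (hC i) f‖ ^ 2 =
        ∫ s, ‖g i s‖ ^ 2 * ‖f s‖ ^ 2 ∂μ := by
      intro i
      rw [norm_sq_eq]
      apply integral_congr_ae
      filter_upwards [coeFn_mulOp (μ := μ) (g i) (hg i) C (hC i) f] with s hs
      rw [hs, norm_mul, mul_pow]
    simp_rw [h2]
    have h3 : (0 : ℝ) = ∫ s, (fun _ : α => (0 : ℝ)) s ∂μ := by simp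
    rw [h3]
    apply tendsto_integral_filter_of_dominated_convergence (fun s => C ^ 2 * ‖f s‖ ^ 2)
    · refine Eventually.of_forall fun i => ?_
      exact ((hg i).norm.pow_const 2).aestronglyMeasurable.mul
        ((Lp.aestronglyMeasurable f).norm.pow 2)
    · refine Eventually.of_forall fun i => ?_
      filter_upwards with s
      rw [norm_mul, norm_pow, norm_pow, norm_norm, norm_norm]
      have := hC i s
      gcongr
    · exact (integrable_normSq f).const_mul _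
    · filter_upwards [hlim] with s hs
      by_cases h0 : f s = 0
      · simp only [h0, norm_zero]
        simpa using tendsto_const_nhds
      · have h4 := (hs h0).norm
        rw [norm_zero] at h4
        have h5 := (h4.pow 2).mul_const (‖f s‖ ^ 2)
        simpa using h5
  have h6 := h1.sqrt
  simpa [Real.sqrt_sq] using h6

/-- real multiplier -/
noncomputable def rmul (ψ : α → ℝ) (hψ : Measurable ψ) (C : ℝ) (hC : ∀ s, |ψ s| ≤ C) :
    Lp ℂ 2 μ →L[ℂ] Lp ℂ 2 μ :=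
  mulOp (fun s => (ψ s : ℂ)) (Complex.measurable_ofReal.comp hψ) C
    (fun s => by rw [Complex.norm_real]; exact hC s)

theorem coeFn_rmul (ψ : α → ℝ) (hψ : Measurable ψ) (C : ℝ) (hC : ∀ s, |ψ s| ≤ C)
    (f : Lp ℂ 2 μ) : (rmul (μ := μ) ψ hψ C hC f : α → ℂ) =ᵐ[μ] fun s => (ψ s : ℂ) * f s :=
  coeFn_mulOp _ _ _ _ _

/-- the quadratic form of a real multiplier -/
noncomputable def q (ψ : α → ℝ) (f : Lp ℂ 2 μ) : ℝ := ∫ s, ψ s * ‖f s‖ ^ 2 ∂μ

theorem integrable_q {ψ : α → ℝ} (hψ : Measurable ψ) {C : ℝ} (hC : ∀ s, |ψ s| ≤ C)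
    (f : Lp ℂ 2 μ) : Integrable (fun s => ψ s * ‖f s‖ ^ 2) μ := by
  refine Integrable.bdd_mul (c := C) (integrable_normSq f) hψ.aestronglyMeasurable ?_
  exact Eventually.of_forall fun s => by rw [Real.norm_eq_abs]; exact hC s

theorem inner_rmul_self (ψ : α → ℝ) (hψ : Measurable ψ) (C : ℝ) (hC : ∀ s, |ψ s| ≤ C)
    (f : Lp ℂ 2 μ) : inner ℂ (rmul ψ hψ C hC f) f = ((q ψ f : ℝ) : ℂ) := by
  rw [L2.inner_def, q, ← integral_complex_ofReal]
  apply integral_congr_ae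
  filter_upwards [coeFn_rmul ψ hψ C hC f] with s hs
  rw [hs, RCLike.inner_apply, map_mul, Complex.conj_ofReal]
  have : f s * (starRingEnd ℂ) (f s) = ((‖f s‖ ^ 2 : ℝ) : ℂ) := by
    rw [Complex.mul_conj, Complex.normSq_eq_norm_sq]
  push_cast at this ⊢
  rw [← this]; ring

theorem inner_rmul_comm (ψ : α → ℝ) (hψ : Measurable ψ) (C : ℝ) (hC : ∀ s, |ψ s| ≤ C)
    (f g : Lp ℂ 2 μ) : inner ℂ (rmul ψ hψ C hC f) g = inner ℂ f (rmul ψ hψ C hC g) := by
  rw [L2.inner_def, L2.inner_def]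
  apply integral_congr_ae
  filter_upwards [coeFn_rmul ψ hψ C hC f, coeFn_rmul ψ hψ C hC g] with s hs hg
  rw [hs, hg, RCLike.inner_apply, RCLike.inner_apply, map_mul, Complex.conj_ofReal]
  ring

theorem norm_rmul_sq (ψ : α → ℝ) (hψ : Measurable ψ) (C : ℝ) (hC : ∀ s, |ψ s| ≤ C)
    (f : Lp ℂ 2 μ) : ‖rmul ψ hψ C hC f‖ ^ 2 = q (fun s => ψ s ^ 2) f := by
  rw [norm_sq_eq, q]
  apply integral_congr_ae
  filter_upwards [coeFn_rmul ψ hψ C hC f] with s hs
  rw [hs, norm_mul, mul_pow, Complex.norm_real, Real.norm_eq_abs, sq_abs]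

theorem q_add (ψ : α → ℝ) (hψ : Measurable ψ) (C : ℝ) (hC : ∀ s, |ψ s| ≤ C)
    (f g : Lp ℂ 2 μ) :
    q ψ (f + g) = q ψ f + 2 * (inner ℂ (rmul ψ hψ C hC f) g).re + q ψ g := by
  have h := inner_rmul_self ψ hψ C hC (f + g)
  have hf := inner_rmul_self ψ hψ C hC f
  have hg := inner_rmul_self ψ hψ C hC g
  rw [map_add, inner_add_left, inner_add_right, inner_add_right, hf, hg] at h
  have h2 : inner ℂ (rmul ψ hψ C hC g) f =
      (starRingEnd ℂ) (inner ℂ (rmul ψ hψ C hC f) g) := by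
    rw [inner_rmul_comm, inner_conj_symm]
  rw [h2] at h
  have h3 := congrArg Complex.re h
  simp only [Complex.add_re, Complex.ofReal_re, Complex.conj_re] at h3
  linarith

theorem abs_q_le {ψ : α → ℝ} (hψ : Measurable ψ) {C : ℝ} (hC : ∀ s, |ψ s| ≤ C)
    (f : Lp ℂ 2 μ) : |q ψ f| ≤ C * ‖f‖ ^ 2 := by
  rw [norm_sq_eq, q, ← integral_const_mul]
  calc |∫ s, ψ s * ‖f s‖ ^ 2 ∂μ| ≤ ∫ s, |ψ s * ‖f s‖ ^ 2| ∂μ := abs_integral_le_integral_abs
    _ ≤ ∫ s, C * ‖f s‖ ^ 2 ∂μ := by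
      apply integral_mono (integrable_q hψ hC f).abs ((integrable_normSq f).const_mul _)
      intro s
      simp only [abs_mul]
      rw [abs_of_nonneg (by positivity : (0 : ℝ) ≤ ‖f s‖ ^ 2)]
      exact mul_le_mul_of_nonneg_right (hC s) (by positivity)

end Pool.Agent.H588_SG
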