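import Pool.Agent.H588_SG.Semi

set_option autoImplicit false
open MeasureTheory Filter Topology Set
open scoped ENNReal

namespace Pool.Agent.H588_SG

/-- the weight `1 / max s 1` -/
noncomputable def w (s : ℝ) : ℝ := (max s 1)⁻¹

theorem w_pos (s : ℝ) : 0 < w s := by
  unfold w
  exact inv_pos.2 (lt_of_lt_of_le zero_lt_one (le_max_right _ _))

theorem w_le_one (s : ℝ) : w s ≤ 1 := by
  unfold w
  exact inv_le_one_of_one_le₀ (le_max_right _ _)

theorem w_of_lt {s : ℝ} (h : 1 < s) : w s = s⁻¹ := by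
  unfold w
  rw [max_eq_left h.le]

theorem measurable_w : Measurable w := by
  unfold w
  fun_prop

/-- the multiplier -/
noncomputable def psi (δ s : ℝ) : ℝ := w s - δ

/-- the derivative multiplier -/
noncomputable def dd (δ s : ℝ) : ℝ := -3 * w s ^ 2 + 2 * δ * w s

theorem measurable_psi (δ : ℝ) : Measurable (psi δ) := measurable_w.sub_const δ

theorem measurable_dd (δ : ℝ) : Measurable (dd δ) := by
  unfold dd
  exact ((measurable_w.pow_const 2).const_mul _).add (measurable_w.const_mul _)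

theorem abs_psi_le {δ : ℝ} (hδ : 0 ≤ δ) (s : ℝ) : |psi δ s| ≤ 1 + δ := by
  unfold psi
  rw [abs_le]
  constructor <;> linarith [w_pos s, w_le_one s]

theorem abs_dd_le {δ : ℝ} (hδ : 0 ≤ δ) (s : ℝ) : |dd δ s| ≤ 3 + 2 * δ := by
  unfold dd
  have h1 := w_pos s
  have h2 := w_le_one s
  rw [abs_le]
  constructor <;> nlinarith [mul_nonneg hδ h1.le, mul_nonneg hδ (sub_nonneg.2 h2),
    mul_nonneg h1.le (sub_nonneg.2 h2), mul_nonneg h1.le h1.le]

theorem key_ineq {u h δ : ℝ} (hu : 1 < u) (hh : 0 < h) (hδ : 0 ≤ δ) :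
    ((u + h)⁻¹ - δ) * (u / (u + h)) ^ 2 - (u⁻¹ - δ) ≤
      h * (-3 * (u⁻¹) ^ 2 + 2 * δ * u⁻¹ + 6 * h) := by
  have hu0 : u ≠ 0 := by intro h; linarith
  have huh : u + h ≠ 0 := by intro h; linarith
  set a := u⁻¹ with ha
  set r := u / (u + h) with hr
  have ha0 : 0 < a := inv_pos.2 (by linarith)
  have ha1 : a ≤ 1 := inv_le_one_of_one_le₀ hu.le
  have hr0 : 0 < r := div_pos (by linarith) (by linarith)
  have hr1 : r ≤ 1 := by rw [hr, div_le_one (by linarith)]; linarith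
  have h1 : (u + h)⁻¹ = r * a := by rw [hr, ha]; field_simp
  have h2 : 1 - r = h * (r * a) := by rw [hr, ha]; field_simp; ring
  rw [h1]
  have h3 : (r * a - δ) * r ^ 2 - (a - δ) =
      (1 - r) * (-a * (1 + r + r ^ 2) + δ * (1 + r)) := by ring
  rw [h3, h2]
  have h4 : h * (r * a) * (-a * (1 + r + r ^ 2) + δ * (1 + r)) =
      h * (-a ^ 2 * (r + r ^ 2 + r ^ 3) + δ * a * (r + r ^ 2)) := by ring
  rw [h4]
  apply mul_le_mul_of_nonneg_left _ hh.le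
  have hra : r * a ≤ 1 := by nlinarith
  have h5 : 1 - r ≤ h := by rw [h2]; nlinarith
  have h6 : 3 - r - r ^ 2 - r ^ 3 ≤ 6 * h := by
    have e : 3 - r - r ^ 2 - r ^ 3 = (1 - r) * (3 + 2 * r + r ^ 2) := by ring
    rw [e]
    have : 3 + 2 * r + r ^ 2 ≤ 6 := by nlinarith
    nlinarith
  have h7 : 0 ≤ 3 - r - r ^ 2 - r ^ 3 := by
    have e3 : r ^ 3 ≤ 1 := pow_le_one₀ hr0.le hr1
    have e2 : r ^ 2 ≤ 1 := pow_le_one₀ hr0.le hr1
    linarith
  have h8 : a ^ 2 * (3 - r - r ^ 2 - r ^ 3) ≤ 6 * h := by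
    have : a ^ 2 ≤ 1 := pow_le_one₀ ha0.le ha1
    nlinarith
  have h9 : δ * a * (r + r ^ 2) ≤ δ * a * 2 := by
    apply mul_le_mul_of_nonneg_left _ (mul_nonneg hδ ha0.le)
    nlinarith [pow_le_one₀ hr0.le hr1 (n := 2)]
  nlinarith

theorem q_T' (ψ : ℝ → ℝ) (h : ℝ) (f : L2R) :
    q ψ (T' h f) = ∫ u, (ψ (u + h) * gr h (u + h) ^ 2) * ‖f u‖ ^ 2 := by
  rw [← integral_sub_right_eq_self (μ := (volume : Measure ℝ))
    (fun u => (ψ (u + h) * gr h (u + h) ^ 2) * ‖f u‖ ^ 2) h, q]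
  apply integral_congr_ae
  filter_upwards [coeFn_T' h f] with s hs
  rw [hs, norm_mul, mul_pow, Complex.norm_real, Real.norm_eq_abs, sq_abs, sub_add_cancel]
  ring

theorem q_T'_le {h δ : ℝ} (hh : 0 < h) (hδ : 0 ≤ δ) (f : L2R) (hf : f ∈ HH) :
    q (psi δ) (T' h f) ≤ q (psi δ) f + h * (q (dd δ) f + 6 * h * ‖f‖ ^ 2) := by
  have hm : Measurable (fun u => psi δ (u + h) * gr h (u + h) ^ 2) :=
    ((measurable_psi δ).comp (measurable_id.add_const h)).mul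
      (((measurable_gr h).comp (measurable_id.add_const h)).pow_const 2)
  have hb : ∀ u, |psi δ (u + h) * gr h (u + h) ^ 2| ≤ 1 + δ := by
    intro u
    rw [abs_mul]
    have h1 := abs_psi_le hδ (u + h)
    have h2 : |gr h (u + h) ^ 2| ≤ 1 := by
      rw [abs_of_nonneg (sq_nonneg _)]
      exact pow_le_one₀ (gr_nonneg _ _) (gr_le_one _ _)
    calc _ ≤ (1 + δ) * 1 := mul_le_mul h1 h2 (abs_nonneg _) (by linarith)
      _ = 1 + δ := mul_one _
  have i1 := integrable_q hm hb f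
  have i2 := integrable_q (measurable_psi δ) (abs_psi_le hδ) f
  have i3 := integrable_q (measurable_dd δ) (abs_dd_le hδ) f
  have i4 := (integrable_normSq f).const_mul (6 * h)
  have e : q (psi δ) f + h * (q (dd δ) f + 6 * h * ‖f‖ ^ 2) =
      ∫ u, (psi δ u * ‖f u‖ ^ 2 + h * (dd δ u * ‖f u‖ ^ 2 + 6 * h * ‖f u‖ ^ 2)) := by
    have i34 : Integrable (fun u => dd δ u * ‖f u‖ ^ 2 + 6 * h * ‖f u‖ ^ 2)
      (volume : Measure ℝ) := i3.add i4
    rw [integral_add i2 (i34.const_mul h), integral_const_mul, integral_add i3 i4,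
      integral_const_mul, norm_sq_eq]
    rfl
  rw [e, q_T']
  apply integral_mono_ae i1 (i2.add ((i3.add i4).const_mul h))
  filter_upwards [ae_zero_of_mem hf] with u hu
  by_cases h1 : 1 < u
  · have hg : gr h (u + h) = u / (u + h) := by
      unfold gr
      rw [if_pos ⟨hh.le, by linarith⟩, add_sub_cancel_right]
    have k := key_ineq h1 hh hδ
    show psi δ (u + h) * gr h (u + h) ^ 2 * ‖f u‖ ^ 2 ≤
      psi δ u * ‖f u‖ ^ 2 + h * (dd δ u * ‖f u‖ ^ 2 + 6 * h * ‖f u‖ ^ 2)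
    rw [hg, psi, psi, dd, w_of_lt h1, w_of_lt (by linarith : 1 < u + h)]
    nlinarith [mul_le_mul_of_nonneg_right k (sq_nonneg ‖f u‖)]
  · show psi δ (u + h) * gr h (u + h) ^ 2 * ‖f u‖ ^ 2 ≤
      psi δ u * ‖f u‖ ^ 2 + h * (dd δ u * ‖f u‖ ^ 2 + 6 * h * ‖f u‖ ^ 2)
    rw [hu (not_lt.1 h1)]
    simp

theorem gen_bound {δ : ℝ} (hδ : 0 ≤ δ) (X Y : L2R) (hX : X ∈ HH)
    (hlim : Tendsto (fun h : ℝ => ((h : ℂ)⁻¹) • (T' h X - X)) (𝓝[>] 0) (𝓝 Y)) :
    2 * (inner ℂ (rmul (psi δ) (measurable_psi δ) (1 + δ) (abs_psi_le hδ) X) Y).re ≤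
      q (dd δ) X := by
  set M := rmul (μ := (volume : Measure ℝ)) (psi δ) (measurable_psi δ) (1 + δ) (abs_psi_le hδ)
    with hM
  have h1 : ∀ᶠ h : ℝ in 𝓝[>] 0,
      2 * (inner ℂ (M X) (((h : ℂ)⁻¹) • (T' h X - X))).re ≤
        q (dd δ) X + 6 * h * ‖X‖ ^ 2 + (1 + δ) * h * ‖((h : ℂ)⁻¹) • (T' h X - X)‖ ^ 2 := by
    filter_upwards [self_mem_nhdsWithin] with h hh
    have hh0 : 0 < h := hh
    set y := ((h : ℂ)⁻¹) • (T' h X - X) with hy
    have hc : (h : ℂ) ≠ 0 := by exact_mod_cast hh0.ne'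
    have e1 : T' h X = X + (h : ℂ) • y := by
      rw [hy, smul_smul, mul_inv_cancel₀ hc, one_smul]
      abel
    have e2 := q_T'_le hh0 hδ X hX
    have e3 := q_add (psi δ) (measurable_psi δ) (1 + δ) (abs_psi_le hδ) X ((h : ℂ) • y)
    rw [← e1, ← hM, inner_smul_right, Complex.re_ofReal_mul] at e3
    have e4 := abs_q_le (measurable_psi δ) (abs_psi_le hδ) ((h : ℂ) • y)
    rw [norm_smul, Complex.norm_real, Real.norm_eq_abs, abs_of_pos hh0] at e4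
    have e5 := (abs_le.1 e4).1
    have e6 : h * (2 * (inner ℂ (M X) y).re) ≤
        h * (q (dd δ) X + 6 * h * ‖X‖ ^ 2 + (1 + δ) * h * ‖y‖ ^ 2) := by nlinarith
    exact le_of_mul_le_mul_left e6 hh0
  have h2 : Tendsto (fun h : ℝ => 2 * (inner ℂ (M X) (((h : ℂ)⁻¹) • (T' h X - X))).re)
      (𝓝[>] 0) (𝓝 (2 * (inner ℂ (M X) Y).re)) := by
    apply Tendsto.const_mul
    exact (Complex.continuous_re.tendsto _).comp
      (((continuous_const.inner continuous_id).tendsto Y).comp hlim)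
  have h3 : Tendsto (fun h : ℝ => q (dd δ) X + 6 * h * ‖X‖ ^ 2 +
      (1 + δ) * h * ‖((h : ℂ)⁻¹) • (T' h X - X)‖ ^ 2) (𝓝[>] 0)
      (𝓝 (q (dd δ) X + 6 * 0 * ‖X‖ ^ 2 + (1 + δ) * 0 * ‖Y‖ ^ 2)) := by
    have hid : Tendsto (fun h : ℝ => h) (𝓝[>] 0) (𝓝 0) := nhdsWithin_le_nhds
    exact ((hid.const_mul 6).mul_const _ |>.const_add _).add
      ((hid.const_mul _).mul (hlim.norm.pow 2))
  have h4 := le_of_tendsto_of_tendsto h2 h3 h1
  simpa using h4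

theorem resolvent_bound (X Y : L2R) (hX : X ∈ HH)
    (hlim : Tendsto (fun h : ℝ => ((h : ℂ)⁻¹) • (T' h X - X)) (𝓝[>] 0) (𝓝 Y))
    (μ : ℂ) (hμ : μ.re < 0) : 1 / 2 * |μ.re| * ‖X‖ ≤ ‖μ • X - Y‖ := by
  rw [abs_of_neg hμ]
  obtain ⟨δ, hδ'⟩ : ∃ δ, δ = -μ.re := ⟨_, rfl⟩
  have hre : μ.re = -δ := by rw [hδ']; ring
  rw [← hδ']
  have hδ : 0 ≤ δ := by rw [hδ']; linarith
  set M := rmul (μ := (volume : Measure ℝ)) (psi δ) (measurable_psi δ) (1 + δ) (abs_psi_le hδ)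
    with hM
  have h1 := gen_bound hδ X Y hX hlim
  rw [← hM] at h1
  have h2 : 0 ≤ ‖M X - (μ • X - Y)‖ ^ 2 := sq_nonneg _
  rw [norm_sub_sq (𝕜 := ℂ)] at h2
  have h3 : RCLike.re (inner ℂ (M X) (μ • X - Y)) =
      -δ * q (psi δ) X - (inner ℂ (M X) Y).re := by
    rw [inner_sub_right, inner_smul_right, hM, inner_rmul_self]
    show (μ * ((q (psi δ) X : ℝ) : ℂ) - _).re = _
    rw [Complex.sub_re, Complex.re_mul_ofReal, hre]
  rw [h3, hM, norm_rmul_sq, ← hM] at h2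
  have i2 := integrable_q (measurable_psi δ) (abs_psi_le hδ) X
  have i3 := integrable_q (measurable_dd δ) (abs_dd_le hδ) X
  have i4 : Integrable (fun s => psi δ s ^ 2 * ‖X s‖ ^ 2) (volume : Measure ℝ) := by
    apply integrable_q ((measurable_psi δ).pow_const 2) (C := (1 + δ) ^ 2)
    intro s
    rw [abs_pow]
    exact pow_le_pow_left₀ (abs_nonneg _) (abs_psi_le hδ s) 2
  have h5 : δ ^ 2 / 2 * ‖X‖ ^ 2 ≤
      (-2 * δ) * q (psi δ) X - q (dd δ) X - q (fun s => psi δ s ^ 2) X := by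
    have i2' := i2.const_mul (-2 * δ)
    have i23 : Integrable (fun s => -2 * δ * (psi δ s * ‖X s‖ ^ 2) - dd δ s * ‖X s‖ ^ 2)
      (volume : Measure ℝ) := i2'.sub i3
    rw [norm_sq_eq, q, q, q, ← integral_const_mul, ← integral_const_mul,
      ← integral_sub i2' i3, ← integral_sub i23 i4]
    apply integral_mono ((integrable_normSq X).const_mul _) (i23.sub i4)
    intro s
    show δ ^ 2 / 2 * ‖X s‖ ^ 2 ≤ -2 * δ * (psi δ s * ‖X s‖ ^ 2) - dd δ s * ‖X s‖ ^ 2 -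
      psi δ s ^ 2 * ‖X s‖ ^ 2
    rw [psi, dd]
    nlinarith [mul_nonneg (sq_nonneg (δ - 2 * w s)) (sq_nonneg ‖X s‖)]
  have h6 : δ ^ 2 / 2 * ‖X‖ ^ 2 ≤ ‖μ • X - Y‖ ^ 2 := by linarith
  have h7 : (1 / 2 * δ * ‖X‖) ^ 2 ≤ ‖μ • X - Y‖ ^ 2 := by
    refine le_trans ?_ h6
    nlinarith [mul_nonneg (sq_nonneg δ) (sq_nonneg ‖X‖)]
  exact le_of_sq_le_sq h7 (norm_nonneg _)

/-- the test function -/
noncomputable def xx : L2R :=
  indicatorConstLp 2 (measurableSet_Ioc (a := (1 : ℝ)) (b := 2)) (by simp) (1 : ℂ)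

theorem coeFn_xx : (xx : ℝ → ℂ) =ᵐ[volume] (Ioc (1 : ℝ) 2).indicator fun _ => (1 : ℂ) :=
  indicatorConstLp_coeFn

theorem xx_mem : xx ∈ HH := by
  rw [mem_HH]
  apply Lp.ext
  filter_upwards [coeFn_T' 0 xx, coeFn_xx] with s h1 h2
  rw [h1, sub_zero, h2]
  by_cases h : s ∈ Ioc (1 : ℝ) 2
  · rw [indicator_of_mem h]
    have : gr 0 s = 1 := by
      unfold gr
      rw [if_pos ⟨le_rfl, by linarith [h.1]⟩, sub_zero, div_self (by linarith [h.1])]
    rw [this]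
    simp
  · rw [indicator_of_notMem h, mul_zero]

theorem norm_xx : ‖xx‖ = 1 := by
  unfold xx
  rw [norm_indicatorConstLp (by norm_num) (by norm_num)]
  simp
  norm_num

theorem norm_T'_xx (t : ℝ) (ht : 0 ≤ t) : ‖T' t xx‖ ≤ 2 / (2 + t) := by
  have h : ‖T' t xx‖ ≤ 2 / (2 + t) * ‖tau t xx‖ := by
    apply Lp.norm_le_mul_norm_of_ae_le_mul
    have h0 : ∀ᵐ s : ℝ, (xx : ℝ → ℂ) (s - t) = (Ioc (1 : ℝ) 2).indicator (fun _ => (1 : ℂ)) (s - t) :=
      (measurePreserving_sub_right volume t).quasiMeasurePreserving.ae_eq_comp coeFn_xx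
    filter_upwards [coeFn_T' t xx, coeFn_tau t xx, h0] with s h1 h2 h3
    rw [h1, h2, h3, norm_mul, Complex.norm_real, Real.norm_eq_abs, abs_of_nonneg (gr_nonneg _ _)]
    by_cases hs : s - t ∈ Ioc (1 : ℝ) 2
    · apply mul_le_mul_of_nonneg_right _ (norm_nonneg _)
      unfold gr
      rw [if_pos ⟨ht, by linarith [hs.1]⟩, div_le_div_iff₀ (by linarith [hs.1]) (by linarith)]
      nlinarith [hs.2, hs.1]
    · rw [indicator_of_notMem hs]
      simp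
  rw [LinearIsometry.norm_map, norm_xx, mul_one] at h
  exact h

end Pool.Agent.H588_SG
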