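import Pool.Agent.H588_SG.MulOp

set_option autoImplicit false
open MeasureTheory Filter Topology Set
open scoped ENNReal

namespace Pool.Agent.H588_SG

/-- the space `L²(ℝ)` -/
noncomputable abbrev L2R : Type := Lp ℂ 2 (volume : Measure ℝ)

/-- translation -/
noncomputable def tau (t : ℝ) : L2R →ₗᵢ[ℂ] L2R :=
  Lp.compMeasurePreservingₗᵢ ℂ (fun s => s - t) (measurePreserving_sub_right volume t)

theorem coeFn_tau (t : ℝ) (f : L2R) : (tau t f : ℝ → ℂ) =ᵐ[volume] fun s => f (s - t) :=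
  Lp.coeFn_compMeasurePreserving f (measurePreserving_sub_right volume t)

theorem tau_zero (f : L2R) : tau 0 f = f := by
  apply Lp.ext
  filter_upwards [coeFn_tau 0 f] with s hs
  rw [hs, sub_zero]

theorem tendsto_tau (f : L2R) : Tendsto (fun t => tau t f) (𝓝 0) (𝓝 f) := by
  have hc : Continuous (fun t : ℝ => (⟨fun s => s - t, by fun_prop⟩ : C(ℝ, ℝ))) := by
    apply ContinuousMap.continuous_of_continuous_uncurry
    show Continuous (fun p : ℝ × ℝ => p.2 - p.1)
    fun_prop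
  have h := Continuous.compMeasurePreservingLp (μ := (volume : Measure ℝ))
    (ν := (volume : Measure ℝ)) (p := 2) (f := fun _ : ℝ => f) continuous_const hc
    (fun t => measurePreserving_sub_right volume t) (by norm_num)
  have h2 := h.tendsto 0
  have h3 : Lp.compMeasurePreserving (⟨fun s => s - (0 : ℝ), by fun_prop⟩ : C(ℝ, ℝ))
      (measurePreserving_sub_right volume (0 : ℝ)) f = f := tau_zero f
  rw [h3] at h2
  exact h2

/-- the damping factor -/
noncomputable def gr (t s : ℝ) : ℝ := if 0 ≤ t ∧ 1 + t < s then (s - t) / s else 0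

theorem measurable_gr (t : ℝ) : Measurable (gr t) := by
  unfold gr
  refine Measurable.ite ?_ (by fun_prop) measurable_const
  by_cases h : 0 ≤ t
  · simp only [h, true_and]
    exact measurableSet_Ioi
  · simp [h]

theorem gr_nonneg (t s : ℝ) : 0 ≤ gr t s := by
  unfold gr
  split_ifs with h
  · apply div_nonneg <;> linarith [h.1, h.2]
  · exact le_rfl

theorem gr_le_one (t s : ℝ) : gr t s ≤ 1 := by
  unfold gr
  split_ifs with h
  · rw [div_le_one (by linarith [h.1, h.2])]; linarith [h.1]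
  · exact zero_le_one

theorem abs_gr_le (t s : ℝ) : |gr t s| ≤ 1 := by
  rw [abs_of_nonneg (gr_nonneg t s)]; exact gr_le_one t s

/-- the operators on the full space -/
noncomputable def T' (t : ℝ) : L2R →L[ℂ] L2R :=
  (rmul (gr t) (measurable_gr t) 1 (abs_gr_le t)).comp (tau t).toContinuousLinearMap

theorem T'_apply (t : ℝ) (f : L2R) :
    T' t f = rmul (gr t) (measurable_gr t) 1 (abs_gr_le t) (tau t f) := rfl

theorem coeFn_T' (t : ℝ) (f : L2R) :
    (T' t f : ℝ → ℂ) =ᵐ[volume] fun s => (gr t s : ℂ) * f (s - t) := by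
  rw [T'_apply]
  filter_upwards [coeFn_rmul (gr t) (measurable_gr t) 1 (abs_gr_le t) (tau t f), coeFn_tau t f]
    with s h1 h2
  rw [h1, h2]

theorem norm_T'_le (t : ℝ) (f : L2R) : ‖T' t f‖ ≤ ‖f‖ := by
  rw [T'_apply]
  refine (norm_mulOp_le _ _ _ _ _).trans ?_
  rw [one_mul, LinearIsometry.norm_map]

theorem gr_mul (a b : ℝ) (ha : 0 ≤ a) (hb : 0 ≤ b) (s : ℝ) :
    gr a s * gr b (s - a) = gr (a + b) s := by
  unfold gr
  by_cases h1 : 1 + (a + b) < s
  · rw [if_pos ⟨ha, by linarith⟩, if_pos ⟨hb, by linarith⟩, if_pos ⟨by linarith, h1⟩]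
    have : s - a ≠ 0 := by intro h; linarith
    have : s ≠ 0 := by intro h; linarith
    field_simp
    ring
  · rw [if_neg (c := 0 ≤ a + b ∧ 1 + (a + b) < s) (fun h => h1 h.2),
      if_neg (c := 0 ≤ b ∧ 1 + b < s - a) (fun h => h1 (by linarith [h.2]))]
    rw [mul_zero]

theorem T'_add (a b : ℝ) (ha : 0 ≤ a) (hb : 0 ≤ b) (f : L2R) :
    T' (a + b) f = T' a (T' b f) := by
  apply Lp.ext
  have h0 : ∀ᵐ s : ℝ, (T' b f : ℝ → ℂ) (s - a) = (gr b (s - a) : ℂ) * f (s - a - b) :=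
    (measurePreserving_sub_right volume a).quasiMeasurePreserving.ae_eq_comp (coeFn_T' b f)
  filter_upwards [coeFn_T' (a + b) f, coeFn_T' a (T' b f), h0] with s h1 h2 h3
  rw [h1, h2, h3, ← mul_assoc, ← Complex.ofReal_mul, gr_mul a b ha hb, sub_sub]

theorem T'_of_neg (t : ℝ) (ht : t < 0) (f : L2R) : T' t f = 0 := by
  apply Lp.ext
  filter_upwards [coeFn_T' t f, Lp.coeFn_zero ℂ 2 (volume : Measure ℝ)] with s h1 h2
  rw [h1, h2]
  have : gr t s = 0 := by
    unfold gr
    rw [if_neg]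
    intro h
    linarith [h.1]
  rw [this]
  simp

/-- the space of functions vanishing on `(-∞, 1]` -/
noncomputable def HH : Submodule ℂ L2R :=
  LinearMap.ker ((T' 0 - ContinuousLinearMap.id ℂ L2R : L2R →L[ℂ] L2R) : L2R →ₗ[ℂ] L2R)

theorem mem_HH (f : L2R) : f ∈ HH ↔ T' 0 f = f := by
  unfold HH
  rw [LinearMap.mem_ker]
  exact sub_eq_zero

theorem isClosed_HH : IsClosed (HH : Set L2R) :=
  ContinuousLinearMap.isClosed_ker (T' 0 - ContinuousLinearMap.id ℂ L2R)

instance : CompleteSpace HH := isClosed_HH.completeSpace_coe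

theorem T'_mem (t : ℝ) (f : L2R) : T' t f ∈ HH := by
  rw [mem_HH]
  rcases lt_or_ge t 0 with ht | ht
  · rw [T'_of_neg t ht, map_zero]
  · rw [← T'_add 0 t le_rfl ht, zero_add]

/-- the semigroup -/
noncomputable def TT (t : ℝ) : HH →L[ℂ] HH :=
  ((T' t).comp HH.subtypeL).codRestrict HH (fun f => T'_mem t _)

theorem coe_TT (t : ℝ) (f : HH) : ((TT t f : HH) : L2R) = T' t (f : L2R) := rfl

theorem TT_zero : TT 0 = ContinuousLinearMap.id ℂ HH := by
  ext1 f
  apply Subtype.ext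
  rw [coe_TT]
  exact (mem_HH _).1 f.2

theorem TT_add (s t : ℝ) (hs : 0 ≤ s) (ht : 0 ≤ t) : TT (s + t) = (TT s).comp (TT t) := by
  ext1 f
  apply Subtype.ext
  rw [coe_TT, T'_add s t hs ht]
  rfl

theorem norm_TT_le (t : ℝ) : ‖TT t‖ ≤ 1 := by
  apply ContinuousLinearMap.opNorm_le_bound _ zero_le_one
  intro f
  rw [one_mul]
  exact norm_T'_le t _

theorem ae_zero_of_mem {f : L2R} (hf : f ∈ HH) : ∀ᵐ s : ℝ, s ≤ 1 → f s = 0 := by
  have h := (mem_HH f).1 hf
  have h1 := coeFn_T' 0 f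
  rw [h] at h1
  filter_upwards [h1] with s hs h2
  rw [hs]
  have : gr 0 s = 0 := by
    unfold gr
    rw [if_neg]
    intro h
    linarith [h.2]
  rw [this]
  simp

/-- strong right-continuity at `0` -/
theorem tendsto_T' (f : L2R) (hf : f ∈ HH) : Tendsto (fun t => T' t f) (𝓝[≥] 0) (𝓝 f) := by
  have hC : ∀ t s : ℝ, ‖(((gr t s - 1 : ℝ)) : ℂ)‖ ≤ 1 := by
    intro t s
    rw [Complex.norm_real, Real.norm_eq_abs, abs_le]
    constructor <;> linarith [gr_nonneg t s, gr_le_one t s]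
  have hm : ∀ t : ℝ, Measurable (fun s => ((gr t s - 1 : ℝ) : ℂ)) := fun t =>
    Complex.measurable_ofReal.comp ((measurable_gr t).sub_const 1)
  have h1 : Tendsto (fun t => mulOp (μ := (volume : Measure ℝ)) (fun s => ((gr t s - 1 : ℝ) : ℂ))
      (hm t) 1 (hC t) f) (𝓝[≥] 0) (𝓝 0) := by
    apply tendsto_mulOp_zero
    filter_upwards [ae_zero_of_mem hf] with s hs hs0
    have hs1 : 1 < s := by
      by_contra h
      exact hs0 (hs (not_lt.1 h))
    have h2 : Tendsto (fun t : ℝ => (((s - t) / s - 1 : ℝ) : ℂ)) (𝓝[≥] 0) (𝓝 0) := by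
      have h3 : Tendsto (fun t : ℝ => (((s - t) / s - 1 : ℝ) : ℂ)) (𝓝 0)
          (𝓝 ((((s - 0) / s - 1 : ℝ) : ℂ))) := by
        apply Continuous.tendsto
        fun_prop
      have h4 : (((s - 0) / s - 1 : ℝ) : ℂ) = 0 := by
        rw [sub_zero, div_self (by linarith)]; simp
      rw [h4] at h3
      exact h3.mono_left nhdsWithin_le_nhds
    refine h2.congr' ?_
    have h5 : ∀ᶠ t : ℝ in 𝓝[≥] 0, t < s - 1 :=
      nhdsWithin_le_nhds (Iio_mem_nhds (by linarith))
    filter_upwards [h5, self_mem_nhdsWithin] with t ht1 ht2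
    unfold gr
    rw [if_pos ⟨ht2, by linarith⟩]
  have h2 : Tendsto (fun t => rmul (gr t) (measurable_gr t) 1 (abs_gr_le t) (tau t f - f))
      (𝓝[≥] 0) (𝓝 0) := by
    have h3 : Tendsto (fun t => ‖tau t f - f‖) (𝓝[≥] 0) (𝓝 0) := by
      have := (tendsto_tau f).mono_left (nhdsWithin_le_nhds (s := Ici (0 : ℝ)))
      have h4 := (this.sub_const f).norm
      simpa using h4
    refine squeeze_zero_norm (fun t => ?_) h3
    refine (norm_mulOp_le _ _ _ _ _).trans ?_
    rw [one_mul]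
  have h3 : ∀ t, T' t f - f = rmul (gr t) (measurable_gr t) 1 (abs_gr_le t) (tau t f - f) +
      mulOp (μ := (volume : Measure ℝ)) (fun s => ((gr t s - 1 : ℝ) : ℂ)) (hm t) 1 (hC t) f := by
    intro t
    rw [map_sub, ← T'_apply, sub_add]
    congr 1
    apply Lp.ext
    filter_upwards [coeFn_rmul (gr t) (measurable_gr t) 1 (abs_gr_le t) f,
      coeFn_mulOp (μ := (volume : Measure ℝ)) (fun s => ((gr t s - 1 : ℝ) : ℂ)) (hm t) 1 (hC t) f,
      Lp.coeFn_sub (rmul (gr t) (measurable_gr t) 1 (abs_gr_le t) f)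
        (mulOp (μ := (volume : Measure ℝ)) (fun s => ((gr t s - 1 : ℝ) : ℂ)) (hm t) 1 (hC t) f)]
      with s h1 h2 h3
    rw [h3, Pi.sub_apply, h1, h2]
    push_cast
    ring
  have h4 : Tendsto (fun t => T' t f - f) (𝓝[≥] 0) (𝓝 0) := by
    simp_rw [h3]
    simpa using h2.add h1
  simpa using h4.add_const f

theorem tendsto_TT (f : HH) : Tendsto (fun t => TT t f) (𝓝[≥] 0) (𝓝 f) := by
  rw [tendsto_subtype_rng]
  exact tendsto_T' f f.2

theorem continuousOn_TT (f : HH) : ContinuousOn (fun t => TT t f) (Ici 0) := by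
  have key : ∀ a b : ℝ, 0 ≤ a → a ≤ b → ‖TT b f - TT a f‖ ≤ ‖TT (b - a) f - f‖ := by
    intro a b ha hab
    have h1 : TT b = (TT a).comp (TT (b - a)) := by
      rw [← TT_add a (b - a) ha (by linarith)]
      congr 1
      ring
    have h2 : TT b f - TT a f = TT a (TT (b - a) f - f) := by
      rw [h1, map_sub]; rfl
    rw [h2]
    refine ((TT a).le_opNorm _).trans ?_
    exact mul_le_of_le_one_left (norm_nonneg _) (norm_TT_le a)
  have hn : Tendsto (fun t => ‖TT t f - f‖) (𝓝[≥] 0) (𝓝 0) := by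
    have := ((tendsto_TT f).sub_const f).norm
    simpa using this
  intro t0 ht0
  rw [ContinuousWithinAt, tendsto_iff_norm_sub_tendsto_zero]
  have h5 : Tendsto (fun t : ℝ => |t - t0|) (𝓝[≥] t0 ⊔ 𝓝[Ici 0] t0) (𝓝[≥] 0) := by
    rw [tendsto_nhdsWithin_iff]
    refine ⟨?_, Eventually.of_forall fun t => mem_Ici.2 (abs_nonneg _)⟩
    have h6 : Tendsto (fun t : ℝ => |t - t0|) (𝓝 t0) (𝓝 |t0 - t0|) :=
      Continuous.tendsto (by fun_prop) t0
    rw [sub_self, abs_zero] at h6
    exact h6.mono_left (sup_le nhdsWithin_le_nhds nhdsWithin_le_nhds)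
  have h7 : Tendsto (fun t : ℝ => ‖TT |t - t0| f - f‖) (𝓝[Ici 0] t0) (𝓝 0) :=
    hn.comp (h5.mono_left le_sup_right)
  refine squeeze_zero' (Eventually.of_forall fun t => norm_nonneg _) ?_ h7
  filter_upwards [self_mem_nhdsWithin] with t ht
  rcases le_total t0 t with h | h
  · rw [abs_of_nonneg (by linarith)]
    exact key t0 t ht0 h
  · rw [abs_of_nonpos (by linarith), norm_sub_rev]
    have := key t t0 ht h
    rwa [neg_sub]

end Pool.Agent.H588_SG
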